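import Pool.Agent.H7.HD.Targets7
import Pool.Agent.H12.HD.ZA

/-!
# MP_e37c09_lc: module TW, existence of the situation
-/

open Ordinal Cardinal Order Set
open scoped ZFSet

universe u

namespace Pool.Agent.H51.HD.TW

open _root_.HD

/-- TW. -/
theorem tw (hRR : T_RR.{u}) (hHF2 : T_HF2.{u}) : T_TW.{u} := by
  intro D N K lam hD hN hND hK hDK hreg hKl hDl hτ
  obtain ⟨hlk, hrc⟩ := hRR D N K lam hD hN hND hK hDK hreg hKl hDl hτ
  obtain ⟨en, hen⟩ := All.en.{u}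
  have hlam : ℵ₀ < lam.cof := hD.2.2.1.trans hDl
  have hvc : ∀ M : Cardinal.{u}, M.IsRegular → M < D → Pos M.ord lam univ := fun M hM hMD =>
    All.vc M lam hM (hMD.trans hDl)
  have hat : ∀ M : Cardinal.{u}, M.IsRegular → M < D → ∀ X : Set Ordinal.{u}, DS X →
      Pos M.ord lam X → ∃ c, E en c ⊆ X ∧ Atom en M.ord lam c := by
    intro M hM hMD
    have hns : NSX D.ord M.ord lam := All.ha D.ord M.ord lam (hD.2.2.2 M hM hMD lam hDl.le)
    exact All.hb2 en hen D M lam hD.1 hD.2.1 hD.2.2.1 hM hMD hDl hns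
  have hns : NSX D.ord N.ord lam := All.ha D.ord N.ord lam (hD.2.2.2 N hN hND lam hDl.le)
  have hZA : T_ZA.{u} := Pool.Agent.H12.HD.ZA.X All.ea All.da All.db All.va All.vh
  obtain ⟨I, -, ⟨τ, hτD, e0, he0⟩, hatI, hnI⟩ :=
    hZA en hen D N lam hD.1 hD.2.2.1 hN hND hDl hns (hat N hN hND)
  obtain ⟨i0, hi0⟩ : ∃ i0, i0 ∈ I := by
    by_contra h
    push Not at h
    exact hnI ((hvc N hN hND).mono fun b _ _ _ c hc => absurd hc (h c))
  classical
  obtain ⟨e, heI, he⟩ : ∃ e : Ordinal.{u} → Ordinal.{u}, (∀ i, e i ∈ I) ∧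
      ∀ i, e0 i ∈ I → e i = e0 i := by
    refine ⟨fun i => if e0 i ∈ I then e0 i else i0, fun i => ?_, fun i hi => if_pos hi⟩
    by_cases h : e0 i ∈ I
    · simp only [if_pos h]
      exact h
    · simp only [if_neg h]
      exact hi0
  have hne : ¬ Pos N.ord lam {b | ∀ i < τ, b ∉ E en (e i)} := by
    intro h
    refine hnI (h.mono fun b _ hb _ c hc => ?_)
    obtain ⟨a, ha, hac⟩ := he0 c hc
    have h1 := hb a ha
    rwa [he a (hac ▸ hc), hac] at h1
  have hMreg : (succ (max N τ.card)).IsRegular :=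
    Cardinal.isRegular_succ (hN.aleph0_le.trans (le_max_left _ _))
  have hNM : N < succ (max N τ.card) := Order.lt_succ_iff.2 (le_max_left _ _)
  have hτM : τ < (succ (max N τ.card)).ord :=
    Cardinal.lt_ord.2 (Order.lt_succ_iff.2 (le_max_right _ _))
  have hMD : succ (max N τ.card) < D :=
    hD.2.1.isSuccLimit.succ_lt (max_lt hND (Cardinal.lt_ord.1 hτD))
  obtain ⟨c, -, hc⟩ := hat _ hMreg hMD univ ((DO.cst True).congr fun _ => by simp)
    (hvc _ hMreg hMD)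
  obtain ⟨i, -, hi⟩ := hHF2 en N _ lam hen hN hMreg hNM (hMD.trans hDl) τ hτM e hne c hc
  have hd : Atom en N.ord lam (e i) := hatI _ (heI i)
  obtain ⟨A, hA⟩ := All.ca N K.ord lam hN hKl hτ
  obtain ⟨x, hx⟩ := All.ke en hen N K.ord lam (e i) A hN hlam hd hreg hKl hA
  exact ⟨en, _, c, e i, x, ⟨hen, hN, hMreg, hK, hNM, hMD.trans hDK, hKl, hlk, hreg, hrc, hc, hd,
    hx, hi⟩⟩

end Pool.Agent.H51.HD.TW
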